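import Pool.Agent.Helper5.Core2.Defs

/-! O5 for MP_fafe86_al: the lemmas MC, MT, Zc on monolithic groups of class `IsC`. -/

set_option autoImplicit false
set_option linter.unusedSectionVars false

namespace Pool.Agent.Helper15.Core2

open Subgroup Pool.Agent.Helper5.Core2

/-- The skeleton lemmas used here. -/
structure Pre (G : Type*) [Group G] : Prop where
  sq_comm : IsC G → ∀ x y : G, x ^ 2 * y ^ 2 = y ^ 2 * x ^ 2
  mono_center : IsPGroup 2 G → ∀ {z : G}, Mono z → z ∈ center G ∧ z ^ 2 = 1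
  mono_mem : IsC G → ∀ {z : G}, Mono z → ∀ {w : G}, w ^ 2 ≠ 1 → z ∈ zpowers (w ^ 2)
  mm2 : IsC G → ∀ {z : G}, Mono z → ∀ {x y : G}, x ^ 2 = 1 → y ^ 2 = 1 →
    x * y = y * x → x ≠ 1 → y ≠ 1 → x ≠ y → x = z ∨ y = z ∨ x * y = z
  exists_SC : ∀ B₀ : Subgroup G, Sq G ≤ B₀ →
    (∀ x ∈ B₀, ∀ y ∈ B₀, x * y = y * x) → ∃ B : Subgroup G, SC B ∧ B₀ ≤ B
  cyc_of_unique : IsPGroup 2 G → ∀ B : Subgroup G,
    (∀ x ∈ B, ∀ y ∈ B, x * y = y * x) → ∀ {z : G},
    (∀ t ∈ B, t ^ 2 = 1 → t = 1 ∨ t = z) → ∃ b ∈ B, ∀ c ∈ B, c ∈ zpowers b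
  mm3 : IsC G → ∀ {z : G}, Mono z → ∀ {B : Subgroup G}, SC B → ∀ {t y : G},
    t ∈ B → t ^ 2 = 1 → t ≠ 1 → t ≠ z → y ∉ B → y * t = t * y →
    (∀ b ∈ B, y * b * y⁻¹ = b⁻¹) ∧ y ^ 2 = z
  MM' : IsC G → ∀ {z : G}, Mono z → ∀ {B : Subgroup G}, SC B → B.index ≤ 4

section Tools

variable {G : Type*} [Group G]

theorem mem_CC {g : G} : g ∈ CC G ↔ ∀ x : G, x ^ 2 * g = g * x ^ 2 := by
  unfold CC
  rw [mem_centralizer_iff]
  constructor
  · intro h x
    exact h (x ^ 2) ⟨x, rfl⟩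
  · rintro h _ ⟨x, rfl⟩
    exact h x

theorem sq_mem (x : G) : x ^ 2 ∈ Sq G := subset_closure ⟨x, rfl⟩

theorem comm_mem_Sq (x y : G) : x * y * x⁻¹ * y⁻¹ ∈ Sq G := by
  have h : x * y * x⁻¹ * y⁻¹ = x ^ 2 * (x⁻¹ * y) ^ 2 * (y⁻¹) ^ 2 := by
    simp only [pow_two]; group
  rw [h]
  exact mul_mem (mul_mem (sq_mem _) (sq_mem _)) (sq_mem _)

theorem CC_comm_Sq {g s : G} (hg : g ∈ CC G) (hs : s ∈ Sq G) : g * s = s * g := by
  unfold Sq at hs
  induction hs using closure_induction with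
  | mem x hx =>
    obtain ⟨y, rfl⟩ := hx
    exact (mem_CC.mp hg y).symm
  | one => simp
  | mul a b _ _ ha hb => rw [← mul_assoc, ha, mul_assoc, hb, mul_assoc]
  | inv a _ ha =>
    have : Commute g a := ha
    exact this.inv_right

theorem mem_CC_of_Sq {g : G} (h : ∀ s ∈ Sq G, g * s = s * g) : g ∈ CC G :=
  mem_CC.mpr fun x => (h _ (sq_mem x)).symm

theorem Sq_le_CC (hsq : ∀ x y : G, x ^ 2 * y ^ 2 = y ^ 2 * x ^ 2) : Sq G ≤ CC G := by
  unfold Sq
  rw [closure_le]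
  rintro _ ⟨x, rfl⟩
  exact mem_CC.mpr fun y => hsq y x

theorem CC_conj {n : G} (hn : n ∈ CC G) (g : G) : g * n * g⁻¹ ∈ CC G := by
  rw [mem_CC] at hn ⊢
  intro x
  have h := hn (g⁻¹ * x * g)
  have e : (g⁻¹ * x * g) ^ 2 = g⁻¹ * x ^ 2 * g := by simp only [pow_two]; group
  rw [e] at h
  calc x ^ 2 * (g * n * g⁻¹) = g * (g⁻¹ * x ^ 2 * g * n) * g⁻¹ := by group
    _ = g * (n * (g⁻¹ * x ^ 2 * g)) * g⁻¹ := by rw [h]
    _ = g * n * g⁻¹ * x ^ 2 := by group

/-- an element of a 2-group with nontrivial square has a power of order exactly 4 -/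
theorem exists_order_four (h2 : IsPGroup 2 G) {w : G} (hw : w ^ 2 ≠ 1) :
    ∃ k : ℕ, ((w ^ k) ^ 2) ^ 2 = 1 ∧ (w ^ k) ^ 2 ≠ 1 := by
  classical
  have hex := h2 w
  let n := Nat.find hex
  have hn : w ^ 2 ^ n = 1 := Nat.find_spec hex
  have hmin : ∀ m < n, w ^ 2 ^ m ≠ 1 := fun m hm => Nat.find_min hex hm
  have h2n : 2 ≤ n := by
    by_contra hlt
    push Not at hlt
    interval_cases hnn : n
    · apply hw
      simp only [pow_zero, pow_one] at hn
      rw [hn, one_pow]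
    · apply hw
      simpa using hn
  obtain ⟨m, hm⟩ := Nat.exists_eq_add_of_le h2n
  refine ⟨2 ^ m, ?_, ?_⟩
  · rw [← pow_mul, ← pow_mul]
    rw [hm, pow_add] at hn
    convert hn using 2
    ring
  · rw [← pow_mul]
    have := hmin (1 + m) (by omega)
    rw [pow_add] at this
    intro h
    apply this
    rw [← h]
    congr 1
    ring

theorem mem_zpowers_odd (h2 : IsPGroup 2 G) (g : G) {m : ℤ} (hm : Odd m) :
    g ∈ zpowers (g ^ m) := by
  obtain ⟨k, hk⟩ := h2 g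
  have hcop : IsCoprime m ((2 : ℤ) ^ k) := by
    apply IsCoprime.pow_right
    rw [Int.isCoprime_iff_gcd_eq_one]
    obtain ⟨r, rfl⟩ := hm
    have : Int.gcd (2 * r + 1) 2 = 1 := by
      rw [Int.gcd_comm]
      simp
    exact this
  obtain ⟨a, b, hab⟩ := hcop
  refine ⟨a, ?_⟩
  have e : g ^ (a * m + b * 2 ^ k) = g := by rw [hab, zpow_one]
  rw [zpow_add, mul_comm b, zpow_mul g ((2 : ℤ) ^ k) b] at e
  have e2 : g ^ ((2 : ℤ) ^ k) = 1 := by
    have : ((2 : ℤ) ^ k) = ((2 ^ k : ℕ) : ℤ) := by push_cast; rfl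
    rw [this, zpow_natCast, hk]
  rw [e2, one_zpow, mul_one] at e
  change (g ^ m) ^ a = g
  rw [← zpow_mul, mul_comm m a]
  exact e

theorem mem_zpowers_of_sq_one {g w : G} (hw : w ^ 2 = 1) (hg : g ∈ zpowers w) : g = 1 ∨ g = w := by
  obtain ⟨k, rfl⟩ := hg
  change w ^ k = 1 ∨ w ^ k = w
  rcases Int.even_or_odd k with ⟨r, hr⟩ | ⟨r, hr⟩
  · left
    have : w ^ k = (w ^ 2) ^ r := by
      rw [hr, ← two_mul, zpow_mul, zpow_ofNat]
    rw [this, hw, one_zpow]
  · right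
    have : w ^ k = (w ^ 2) ^ r * w := by
      rw [hr, zpow_add, zpow_mul, zpow_one, zpow_ofNat]
    rw [this, hw, one_zpow, one_mul]

/-- a central involution of a monolithic group is the monolith element -/
theorem mono_eq {z w : G} (hz : Mono z) (hw : w ∈ center G) (hw2 : w ^ 2 = 1) (hw1 : w ≠ 1) :
    w = z := by
  have hn : (zpowers w).Normal := by
    constructor
    intro n hn g
    obtain ⟨k, rfl⟩ := hn
    refine ⟨k, ?_⟩
    have : Commute g w := (mem_center_iff.mp hw g)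
    have h2 := (this.zpow_right k).eq
    change w ^ k = g * w ^ k * g⁻¹
    rw [h2, mul_inv_cancel_right]
  have hne : zpowers w ≠ ⊥ := by
    intro h
    exact hw1 (zpowers_eq_bot.mp h)
  rcases mem_zpowers_of_sq_one hw2 (hz.2 _ hn hne) with h | h
  · exact absurd h hz.1
  · exact h.symm

theorem sq_index {B : Subgroup G} {b : G} (hbB : b ∈ B) (hb : ∀ c ∈ B, c ∈ zpowers b) {p q : G}
    (hp : p ∈ B) (hq : q ∈ B) (hp' : ¬ ∃ s ∈ B, p = s ^ 2) (hq' : ¬ ∃ s ∈ B, q = s ^ 2) :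
    ∃ s ∈ B, p * q = s ^ 2 := by
  obtain ⟨i, rfl⟩ := hb p hp
  obtain ⟨j, rfl⟩ := hb q hq
  have key : ∀ i : ℤ, (¬ ∃ s ∈ B, b ^ i = s ^ 2) → Odd i := by
    intro i hi
    by_contra hodd
    rw [Int.not_odd_iff_even] at hodd
    obtain ⟨r, hr⟩ := hodd
    apply hi
    refine ⟨b ^ r, zpow_mem hbB r, ?_⟩
    rw [hr, zpow_add, pow_two]
  obtain ⟨r, hr⟩ := (key i hp').add_odd (key j hq')
  refine ⟨b ^ r, zpow_mem hbB r, ?_⟩
  change b ^ i * b ^ j = (b ^ r) ^ 2
  rw [← zpow_add, hr, zpow_add, pow_two]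

theorem mem_of_relIndex_two {B M : Subgroup G} (h : B.relIndex M = 2) {a b : G} (ha : a ∈ M)
    (hb : b ∈ M) (ha' : a ∉ B) (hb' : b ∉ B) : a * b ∈ B := by
  have h2 : (B.subgroupOf M).index = 2 := h
  have := (mul_mem_iff_of_index_two h2 (a := ⟨a, ha⟩) (b := ⟨b, hb⟩))
  rw [mem_subgroupOf, mem_subgroupOf, mem_subgroupOf] at this
  exact this.mpr ⟨fun h => absurd h ha', fun h => absurd h hb'⟩

/-- The centre of `CC G`. -/
def ZM (G : Type*) [Group G] : Subgroup G := CC G ⊓ centralizer (CC G : Set G)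

theorem mem_ZM {s : G} : s ∈ ZM G ↔ s ∈ CC G ∧ ∀ g ∈ CC G, s * g = g * s := by
  unfold ZM
  rw [mem_inf, mem_centralizer_iff]
  constructor
  · rintro ⟨h1, h2⟩
    exact ⟨h1, fun g hg => (h2 g hg).symm⟩
  · rintro ⟨h1, h2⟩
    exact ⟨h1, fun g hg => (h2 g hg).symm⟩

theorem Sq_le_ZM (hsq : ∀ x y : G, x ^ 2 * y ^ 2 = y ^ 2 * x ^ 2) : Sq G ≤ ZM G := by
  intro s hs
  exact mem_ZM.mpr ⟨Sq_le_CC hsq hs, fun g hg => (CC_comm_Sq hg hs).symm⟩

theorem ZM_conj {n : G} (hn : n ∈ ZM G) (g : G) : g * n * g⁻¹ ∈ ZM G := by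
  rw [mem_ZM] at hn ⊢
  refine ⟨CC_conj hn.1 g, fun k hk => ?_⟩
  have h := hn.2 (g⁻¹ * k * g) (by simpa using CC_conj hk g⁻¹)
  calc g * n * g⁻¹ * k = g * (n * (g⁻¹ * k * g)) * g⁻¹ := by group
    _ = g * (g⁻¹ * k * g * n) * g⁻¹ := by rw [h]
    _ = k * (g * n * g⁻¹) := by group

theorem SC_le_CC {B : Subgroup G} (hB : SC B) : B ≤ CC G := fun b hb =>
  mem_CC_of_Sq fun s hs => hB.comm b hb s (hB.sq_le hs)

theorem ZM_le_SC {B : Subgroup G} (hB : SC B) : ZM G ≤ B := fun s hs =>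
  hB.cent s fun b hb => (mem_ZM.mp hs).2 b (SC_le_CC hB hb)

theorem exists_SC_pair (P : Pre G) (h : IsC G) {c s : G} (hc : c ∈ CC G) (hs : s ∈ CC G)
    (hcs : c * s = s * c) : ∃ B : Subgroup G, SC B ∧ c ∈ B ∧ s ∈ B := by
  have hsq := P.sq_comm h
  let S : Set G := (Sq G : Set G) ∪ {c, s}
  have hS : ∀ a ∈ S, ∀ b ∈ S, a * b = b * a := by
    rintro a (ha | ha | ha) b (hb | hb | hb)
    · exact CC_comm_Sq (Sq_le_CC hsq ha) hb
    · rw [hb]; exact (CC_comm_Sq hc ha).symm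
    · rw [hb]; exact (CC_comm_Sq hs ha).symm
    · rw [ha]; exact CC_comm_Sq hc hb
    · rw [ha, hb]
    · rw [ha, hb]; exact hcs
    · rw [ha]; exact CC_comm_Sq hs hb
    · rw [ha, hb]; exact hcs.symm
    · rw [ha, hb]
  have h1 : ∀ a ∈ S, ∀ b ∈ closure S, a * b = b * a := by
    intro a ha b hb
    have : closure S ≤ centralizer {a} := by
      rw [closure_le]
      intro y hy
      exact mem_centralizer_iff.mpr (by
        rintro _ rfl
        exact hS _ ha y hy)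
    exact mem_centralizer_iff.mp (this hb) a rfl
  have h2 : ∀ a ∈ closure S, ∀ b ∈ closure S, a * b = b * a := by
    intro a ha b hb
    have : closure S ≤ centralizer {b} := by
      rw [closure_le]
      intro y hy
      exact mem_centralizer_iff.mpr (by
        rintro _ rfl
        exact (h1 y hy _ hb).symm)
    exact (mem_centralizer_iff.mp (this ha) b rfl).symm
  obtain ⟨B, hB, hle⟩ := P.exists_SC (closure S)
    (fun a ha => subset_closure (Or.inl ha)) h2
  exact ⟨B, hB, hle (subset_closure (Or.inr (Or.inl rfl))),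
    hle (subset_closure (Or.inr (Or.inr rfl)))⟩

end Tools

section MCsec

variable {G : Type*} [Group G]

theorem MC_index [Finite G] (P : Pre G) (h : IsC G) {z : G} (hz : Mono z) {x : G}
    (hx : x ^ 2 ∉ center G) {B : Subgroup G} (hB : SC B) {d : G} (hd : d ∈ CC G) (hdB : d ∉ B) :
    (CC G).index = 2 ∧ B.relIndex (CC G) = 2 := by
  have h1 : (CC G).index ≠ 1 := by
    intro h1
    rw [index_eq_one] at h1
    apply hx
    rw [mem_center_iff]
    intro g
    have : g ∈ CC G := h1 ▸ mem_top g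
    exact (mem_CC.mp this x).symm
  have h0 : (CC G).index ≠ 0 := index_ne_zero_of_finite
  have h2 : B.relIndex (CC G) ≠ 1 := by
    intro h2
    rw [relIndex_eq_one] at h2
    exact hdB (h2 hd)
  have h3 : B.relIndex (CC G) ≠ 0 := by
    have : (B.subgroupOf (CC G)).index ≠ 0 := index_ne_zero_of_finite
    exact this
  have h4 := relIndex_mul_index (SC_le_CC hB)
  have h5 := P.MM' h hz hB
  rw [← h4] at h5
  constructor
  · by_contra h6
    have : 3 ≤ (CC G).index := by omega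
    have : 2 ≤ B.relIndex (CC G) := by omega
    nlinarith
  · by_contra h6
    have : 3 ≤ B.relIndex (CC G) := by omega
    have : 2 ≤ (CC G).index := by omega
    nlinarith

/-- commutator of two elements -/
abbrev br (a b : G) : G := a * b * a⁻¹ * b⁻¹

theorem br_eq_one {a b : G} : br a b = 1 ↔ a * b = b * a := by
  unfold br
  constructor
  · intro h
    calc a * b = (a * b * a⁻¹ * b⁻¹) * (b * a) := by group
      _ = b * a := by rw [h, one_mul]
  · intro h
    rw [h]; group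

theorem br_mul_left {a b e : G} (ha : a ∈ CC G) : br (a * b) e = br b e * br a e := by
  have h := CC_comm_Sq ha (comm_mem_Sq b e)
  unfold br
  calc a * b * e * (a * b)⁻¹ * e⁻¹ = (a * (b * e * b⁻¹ * e⁻¹)) * e * a⁻¹ * e⁻¹ := by group
    _ = ((b * e * b⁻¹ * e⁻¹) * a) * e * a⁻¹ * e⁻¹ := by rw [h]
    _ = (b * e * b⁻¹ * e⁻¹) * (a * e * a⁻¹ * e⁻¹) := by group

theorem br_mul_right {a b e : G} (ha : a ∈ CC G) : br e (a * b) = br e a * br e b := by
  have h := CC_comm_Sq ha (comm_mem_Sq e b)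
  unfold br
  calc e * (a * b) * e⁻¹ * (a * b)⁻¹ = (e * a * e⁻¹ * a⁻¹) * (a * (e * b * e⁻¹ * b⁻¹)) * a⁻¹ := by group
    _ = (e * a * e⁻¹ * a⁻¹) * ((e * b * e⁻¹ * b⁻¹) * a) * a⁻¹ := by rw [h]
    _ = (e * a * e⁻¹ * a⁻¹) * (e * b * e⁻¹ * b⁻¹) := by group

theorem br_inv {a b : G} : br a b = (br b a)⁻¹ := by
  unfold br; group

variable [Finite G] {z x c d : G} (P : Pre G) (h : IsC G) (hz : Mono z) (hx : x ^ 2 ∉ center G)
  (hc : c ∈ CC G) (hd : d ∈ CC G) (hcd : c * d ≠ d * c)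

include P h hz hx hc hd hcd

theorem idx : (CC G).index = 2 := by
  obtain ⟨B, hB, hcB, -⟩ := exists_SC_pair P h hc hc rfl
  exact (MC_index P h hz hx hB hd (fun hdB => hcd (hB.comm c hcB d hdB))).1

theorem three {s : G} (hs : s ∈ CC G) (hsc : s * c = c * s) (hsd : s * d = d * s) :
    s ∈ ZM G := by
  obtain ⟨B, hB, hcB, hsB⟩ := exists_SC_pair P h hc hs hsc.symm
  have hdB : d ∉ B := fun hdB => hcd (hB.comm c hcB d hdB)
  have h2 := (MC_index P h hz hx hB hd hdB).2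
  refine mem_ZM.mpr ⟨hs, fun g hg => ?_⟩
  by_cases hgB : g ∈ B
  · exact hB.comm s hsB g hgB
  · have h3 := mem_of_relIndex_two h2 hg (inv_mem hd) hgB (fun h => hdB (inv_mem_iff.mp h))
    have h4 := hB.comm s hsB _ h3
    calc s * g = s * (g * d⁻¹) * d := by group
      _ = (g * d⁻¹ * s) * d := by rw [h4]
      _ = g * d⁻¹ * (s * d) := by group
      _ = g * d⁻¹ * (d * s) := by rw [hsd]
      _ = g * s := by group

theorem dec {g : G} (hg : g ∈ CC G) :
    ∃ s ∈ ZM G, g = s ∨ g = s * c ∨ g = s * d ∨ g = s * (c * d) := by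
  obtain ⟨B, hB, hcB, -⟩ := exists_SC_pair P h hc hc rfl
  have hdB : d ∉ B := fun hdB => hcd (hB.comm c hcB d hdB)
  have h2 := (MC_index P h hz hx hB hd hdB).2
  obtain ⟨D, hD, hdD, -⟩ := exists_SC_pair P h hd hd rfl
  have hcD : c ∉ D := fun hcD => hcd (hD.comm c hcD d hdD)
  have h3 := (MC_index P h hz hx hD hc hcD).2
  have hw := CC_comm_Sq hd (comm_mem_Sq c d⁻¹)
  by_cases h4 : g ∈ B
  · have h4c := hB.comm g h4 c hcB
    by_cases h5 : g ∈ D
    · exact ⟨g, three P h hz hx hc hd hcd hg h4c (hD.comm g h5 d hdD), Or.inl rfl⟩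
    · have h6 := mem_of_relIndex_two h3 hg (inv_mem hc) h5 (fun h => hcD (inv_mem_iff.mp h))
      refine ⟨g * c⁻¹, three P h hz hx hc hd hcd (mul_mem hg (inv_mem hc)) ?_
        (hD.comm _ h6 d hdD), Or.inr (Or.inl (by group))⟩
      exact hB.comm _ (mul_mem h4 (inv_mem hcB)) c hcB
  · have h7 := mem_of_relIndex_two h2 hg (inv_mem hd) h4 (fun h => hdB (inv_mem_iff.mp h))
    by_cases h5 : g ∈ D
    · refine ⟨g * d⁻¹, three P h hz hx hc hd hcd (mul_mem hg (inv_mem hd)) (hB.comm _ h7 c hcB) ?_,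
        Or.inr (Or.inr (Or.inl (by group)))⟩
      exact hD.comm _ (mul_mem h5 (inv_mem hdD)) d hdD
    · have h6 := mem_of_relIndex_two h3 hg (inv_mem hc) h5 (fun h => hcD (inv_mem_iff.mp h))
      refine ⟨g * (c * d)⁻¹, three P h hz hx hc hd hcd (mul_mem hg (inv_mem (mul_mem hc hd))) ?_ ?_,
        Or.inr (Or.inr (Or.inr (by group)))⟩
      · have := hB.comm _ (mul_mem h7 (inv_mem hcB)) c hcB
        rw [show g * (c * d)⁻¹ = g * d⁻¹ * c⁻¹ by group]
        exact this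
      · have h8 : (g * c⁻¹) * (c * d⁻¹ * c⁻¹ * d⁻¹⁻¹) ∈ D := mul_mem h6 (hD.sq_le (comm_mem_Sq c d⁻¹))
        have h9 := hD.comm _ (mul_mem h8 (inv_mem hdD)) d hdD
        rw [show g * (c * d)⁻¹ = g * c⁻¹ * (c * d⁻¹ * c⁻¹ * d⁻¹⁻¹) * d⁻¹ by group]
        exact h9

theorem br_w {e : G} (he : e ∈ CC G) {w : G} (hw2 : w * w = 1)
    (h1 : br c e = 1 ∨ br c e = w) (h2 : br d e = 1 ∨ br d e = w)
    {g : G} (hg : g ∈ CC G) : br g e = 1 ∨ br g e = w := by
  obtain ⟨s, hs, hcase⟩ := dec P h hz hx hc hd hcd hg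
  have hs1 : br s e = 1 := br_eq_one.mpr ((mem_ZM.mp hs).2 e he)
  have hsM := (mem_ZM.mp hs).1
  have h3 : br (c * d) e = 1 ∨ br (c * d) e = w := by
    rw [br_mul_left hc]
    rcases h1 with h1 | h1 <;> rcases h2 with h2 | h2 <;> rw [h1, h2]
    · left; simp
    · right; simp
    · right; simp
    · left; exact hw2
  rcases hcase with rfl | rfl | rfl | rfl
  · exact Or.inl hs1
  · rw [br_mul_left hsM, hs1, mul_one]; exact h1
  · rw [br_mul_left hsM, hs1, mul_one]; exact h2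
  · rw [br_mul_left hsM, hs1, mul_one]; exact h3

theorem w_sq : br c d * br c d = 1 := by
  have h1 : br (c * c) d = br c d * br c d := br_mul_left hc
  rw [← h1]
  have h2 := CC_comm_Sq hd (sq_mem c)
  rw [pow_two] at h2
  exact br_eq_one.mpr h2.symm

theorem br_mem_w {g e : G} (hg : g ∈ CC G) (he : e ∈ CC G) : br g e = 1 ∨ br g e = br c d := by
  have hw2 := w_sq P h hz hx hc hd hcd
  have hdc : br d c = br c d := by
    rw [br_inv]
    exact inv_eq_of_mul_eq_one_left hw2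
  have hc1 : ∀ g ∈ CC G, br g c = 1 ∨ br g c = br c d := fun g hg =>
    br_w P h hz hx hc hd hcd hc hw2 (Or.inl (br_eq_one.mpr rfl)) (Or.inr hdc) hg
  have hd1 : ∀ g ∈ CC G, br g d = 1 ∨ br g d = br c d := fun g hg =>
    br_w P h hz hx hc hd hcd hd hw2 (Or.inr rfl) (Or.inl (br_eq_one.mpr rfl)) hg
  have hinv : (br c d)⁻¹ = br c d := inv_eq_of_mul_eq_one_left hw2
  apply br_w P h hz hx hc hd hcd he hw2 _ _ hg
  · rcases hc1 e he with h1 | h1
    · left; rw [br_inv, h1, inv_one]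
    · right; rw [br_inv, h1, hinv]
  · rcases hd1 e he with h1 | h1
    · left; rw [br_inv, h1, inv_one]
    · right; rw [br_inv, h1, hinv]

theorem w_eq : br c d = z := by
  have hw2 := w_sq P h hz hx hc hd hcd
  have hw1 : br c d ≠ 1 := fun h1 => hcd (br_eq_one.mp h1)
  apply mono_eq hz _ (by rw [pow_two]; exact hw2) hw1
  rw [mem_center_iff]
  intro g
  have e : g * br c d * g⁻¹ = br (g * c * g⁻¹) (g * d * g⁻¹) := by unfold br; group
  rcases br_mem_w P h hz hx hc hd hcd (CC_conj hc g) (CC_conj hd g) with h1 | h1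
  · rw [← e] at h1
    exfalso
    apply hw1
    calc br c d = g⁻¹ * (g * br c d * g⁻¹) * g := by unfold br; group
      _ = 1 := by rw [h1]; group
  · rw [← e] at h1
    calc g * br c d = (g * br c d * g⁻¹) * g := by unfold br; group
      _ = br c d * g := by rw [h1]

theorem br_mem {g e : G} (hg : g ∈ CC G) (he : e ∈ CC G) : br g e = 1 ∨ br g e = z := by
  have := br_mem_w P h hz hx hc hd hcd hg he
  rwa [w_eq P h hz hx hc hd hcd] at this

theorem four_ne : (x ^ 2) ^ 2 ≠ 1 := by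
  intro h4
  have h1 : x ^ 2 ≠ 1 := fun h1 => hx (h1 ▸ one_mem _)
  rcases mem_zpowers_of_sq_one h4 (P.mono_mem h hz h1) with h2 | h2
  · exact hz.1 h2
  · exact hx (h2 ▸ (P.mono_center h.two hz).1)

/-- (5) -/
theorem uniq {t : G} (ht : t ∈ ZM G) (ht2 : t ^ 2 = 1) : t = 1 ∨ t = z := by
  by_contra hcon
  push Not at hcon
  obtain ⟨B, hB, hcB, -⟩ := exists_SC_pair P h hc hc rfl
  have hdB : d ∉ B := fun hdB => hcd (hB.comm c hcB d hdB)
  have hinv := (P.mm3 h hz hB (ZM_le_SC hB ht) ht2 hcon.1 hcon.2 hdB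
    ((mem_ZM.mp ht).2 d hd).symm).1
  have hx2 : x ^ 2 ∈ ZM G := Sq_le_ZM (P.sq_comm h) (sq_mem x)
  have h1 := hinv _ (ZM_le_SC hB hx2)
  have h2 := (mem_ZM.mp hx2).2 d hd
  rw [← h2, mul_inv_cancel_right] at h1
  apply four_ne P h hz hx hc hd hcd
  rw [pow_two]
  nth_rw 2 [h1]
  group

theorem comm_of_index_two {s u g : G} (hs : ∀ g ∈ CC G, s * g = g * s) (hu : u ∉ CC G)
    (hus : u * s = s * u) : s * g = g * s := by
  have h2 := idx P h hz hx hc hd hcd
  by_cases hg : g ∈ CC G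
  · exact hs g hg
  · have h3 : g * u⁻¹ ∈ CC G := by
      rw [mul_mem_iff_of_index_two h2]
      exact ⟨fun h => absurd h hg, fun h => absurd (inv_mem_iff.mp h) hu⟩
    have h4 := hs _ h3
    calc s * g = s * (g * u⁻¹) * u := by group
      _ = g * u⁻¹ * s * u := by rw [h4]
      _ = g * u⁻¹ * (s * u) := by group
      _ = g * u⁻¹ * (u * s) := by rw [hus]
      _ = g * s := by group

theorem central_of {s u : G} (hs : s ∈ ZM G) (hu : u ∉ CC G) (hus : u * s = s * u) :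
    s ∈ center G :=
  mem_center_iff.mpr fun g =>
    (comm_of_index_two P h hz hx hc hd hcd (mem_ZM.mp hs).2 hu hus).symm

theorem x2_mem_ZM : x ^ 2 ∈ ZM G := Sq_le_ZM (P.sq_comm h) (sq_mem x)

theorem not_comm_x2 {g : G} (hg : g ∉ CC G) : g * x ^ 2 ≠ x ^ 2 * g := fun hcomm =>
  hx (central_of P h hz hx hc hd hcd (x2_mem_ZM P h hz hx hc hd hcd) hg hcomm)

theorem x_mem : x ∈ CC G := by
  by_contra hxC
  exact not_comm_x2 P h hz hx hc hd hcd hxC (by rw [pow_two, mul_assoc])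

theorem center_le_ZM : center G ≤ ZM G := fun s hs =>
  mem_ZM.mpr ⟨mem_CC.mpr fun y => (mem_center_iff.mp hs (y ^ 2)),
    fun g _ => (mem_center_iff.mp hs g).symm⟩

theorem z_center : z ∈ center G := (P.mono_center h.two hz).1

theorem z_sq : z * z = 1 := by
  rw [← pow_two]; exact (P.mono_center h.two hz).2

/-- (6) -/
theorem center_eq {g : G} (hg : g ∈ center G) : g = 1 ∨ g = z := by
  by_cases hg2 : g ^ 2 = 1
  · exact uniq P h hz hx hc hd hcd (center_le_ZM P h hz hx hc hd hcd hg) hg2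
  exfalso
  obtain ⟨k, hk4, hk2⟩ := exists_order_four h.two hg2
  have hζ : g ^ k ∈ center G := pow_mem hg k
  generalize g ^ k = ζ at hk4 hk2 hζ
  have hζM := center_le_ZM P h hz hx hc hd hcd hζ
  have hζz : ζ ^ 2 = z :=
    (uniq P h hz hx hc hd hcd (pow_mem hζM 2) hk4).resolve_left hk2
  -- an element outside
  obtain ⟨u, hu⟩ : ∃ u, u ∉ CC G := by
    by_contra hcon
    push Not at hcon
    have h1 : (CC G) = ⊤ := eq_top_iff.mpr fun g _ => hcon g
    have h2 := idx P h hz hx hc hd hcd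
    rw [h1, index_top] at h2
    omega
  have hxC := x_mem P h hz hx hc hd hcd
  set s := x⁻¹ * (u * x * u⁻¹) with hs
  have hsS : s ∈ Sq G := by
    have := comm_mem_Sq x⁻¹ u
    rw [inv_inv] at this
    rw [hs]
    convert this using 1
    group
  have hsM : s ∈ ZM G := Sq_le_ZM (P.sq_comm h) hsS
  have hux : u * x * u⁻¹ = x * s := by rw [hs]; group
  have hus : u * s * u⁻¹ = s⁻¹ := by
    have h1 := CC_comm_Sq hxC (sq_mem u)
    have h2 : x = x * (s * (u * s * u⁻¹)) := by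
      calc x = (x * u ^ 2) * (u ^ 2)⁻¹ := by group
        _ = (u ^ 2 * x) * (u ^ 2)⁻¹ := by rw [h1]
        _ = u * (u * x * u⁻¹) * u⁻¹ := by simp only [pow_two]; group
        _ = u * (x * s) * u⁻¹ := by rw [hux]
        _ = (u * x * u⁻¹) * (u * s * u⁻¹) := by group
        _ = x * s * (u * s * u⁻¹) := by rw [hux]
        _ = x * (s * (u * s * u⁻¹)) := by group
    have h3 : s * (u * s * u⁻¹) = 1 := by
      have := mul_left_cancel (a := x) (b := 1) (c := s * (u * s * u⁻¹)) (by rw [mul_one]; exact h2)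
      exact this.symm
    exact eq_inv_of_mul_eq_one_right h3
  have hs2 : s ^ 2 ≠ 1 := by
    intro hs2
    apply not_comm_x2 P h hz hx hc hd hcd hu
    have hxs := CC_comm_Sq hxC hsS
    have h1 : u * x ^ 2 * u⁻¹ = x ^ 2 := by
      calc u * x ^ 2 * u⁻¹ = (u * x * u⁻¹) * (u * x * u⁻¹) := by simp only [pow_two]; group
        _ = x * s * (x * s) := by rw [hux]
        _ = x * (s * x) * s := by group
        _ = x * (x * s) * s := by rw [hxs]
        _ = x ^ 2 * s ^ 2 := by simp only [pow_two]; group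
        _ = x ^ 2 := by rw [hs2, mul_one]
    calc u * x ^ 2 = (u * x ^ 2 * u⁻¹) * u := by group
      _ = x ^ 2 * u := by rw [h1]
  obtain ⟨m, hm4, hm2⟩ := exists_order_four h.two hs2
  have hmM : s ^ m ∈ ZM G := pow_mem hsM m
  have hmu : u * s ^ m * u⁻¹ = (s ^ m)⁻¹ := by
    rw [← conj_pow, hus, inv_pow]
  generalize s ^ m = r at hm4 hm2 hmM hmu
  have hrz : r ^ 2 = z := (uniq P h hz hx hc hd hcd (pow_mem hmM 2) hm4).resolve_left hm2
  have hζr : ζ * r = r * ζ := (mem_center_iff.mp hζ r).symm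
  have ht2 : (r * ζ⁻¹) ^ 2 = 1 := by
    have hc1 : Commute r ζ⁻¹ := (show Commute r ζ from hζr.symm).inv_right
    rw [hc1.mul_pow, inv_pow, hrz, hζz, mul_inv_cancel]
  have hrc : r ∈ center G := by
    rcases uniq P h hz hx hc hd hcd (mul_mem hmM (inv_mem hζM)) ht2 with h1 | h1
    · rw [mul_inv_eq_one.mp h1]; exact hζ
    · have : r = z * ζ := by rw [← h1]; group
      rw [this]
      exact mul_mem (z_center P h hz hx hc hd hcd) hζ
  have h1 : u * r * u⁻¹ = r := by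
    rw [mem_center_iff.mp hrc u, mul_inv_cancel_right]
  rw [h1] at hmu
  apply hm2
  rw [pow_two]
  nth_rw 1 [hmu]
  group

/-- (7) -/
theorem sq_out {u : G} (hu : u ∉ CC G) : u ^ 2 = 1 ∨ u ^ 2 = z :=
  center_eq P h hz hx hc hd hcd (central_of P h hz hx hc hd hcd
    (Sq_le_ZM (P.sq_comm h) (sq_mem u)) hu (by rw [pow_two, mul_assoc]))

theorem out_mul {u g : G} (hu : u ∉ CC G) (hg : g ∈ CC G) : u * g ∉ CC G := fun h1 =>
  hu (by simpa using mul_mem h1 (inv_mem hg))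

theorem mmX {v g : G} (hv : v ∉ CC G) (hv2 : v ^ 2 = 1) (hg : g ∈ CC G) (hgZ : g ∉ ZM G)
    (hg2 : g ^ 2 = 1) (hvg : v * g = g * v) : False := by
  have hzZ := center_le_ZM P h hz hx hc hd hcd (z_center P h hz hx hc hd hcd)
  have hzC := (mem_ZM.mp hzZ).1
  rcases P.mm2 h hz hv2 hg2 hvg (fun h1 => hv (h1 ▸ one_mem _)) (fun h1 => hgZ (h1 ▸ one_mem _))
    (fun h1 => hv (h1 ▸ hg)) with h1 | h1 | h1
  · exact hv (h1 ▸ hzC)
  · exact hgZ (h1 ▸ hzZ)
  · exact out_mul P h hz hx hc hd hcd hv hg (h1 ▸ hzC)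

theorem nn {u g : G} (hu : u ∉ CC G) : (u * g) ^ 2 = u ^ 2 * (u * g * u⁻¹ * g) := by
  have h1 : u ^ 2 ∈ center G := by
    rcases sq_out P h hz hx hc hd hcd hu with h1 | h1 <;> rw [h1]
    · exact one_mem _
    · exact z_center P h hz hx hc hd hcd
  have h2 := mem_center_iff.mp h1 (u * g * u⁻¹)
  calc (u * g) ^ 2 = (u * g * u⁻¹) * u ^ 2 * g := by simp only [pow_two]; group
    _ = u ^ 2 * (u * g * u⁻¹) * g := by rw [h2]
    _ = u ^ 2 * (u * g * u⁻¹ * g) := by group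

theorem nn_mem {u g : G} (hu : u ∉ CC G) (hg : g ∈ CC G) :
    u * g * u⁻¹ * g = 1 ∨ u * g * u⁻¹ * g = z := by
  have h1 := nn P h hz hx hc hd hcd (g := g) hu
  have hzz := z_sq P h hz hx hc hd hcd
  have h4 : u * g * u⁻¹ * g = (u ^ 2)⁻¹ * (u * g) ^ 2 := by rw [h1]; group
  rw [h4]
  rcases sq_out P h hz hx hc hd hcd hu with h2 | h2 <;>
    rcases sq_out P h hz hx hc hd hcd (out_mul P h hz hx hc hd hcd hu hg) with h3 | h3 <;>
    rw [h2, h3]
  · left; simp
  · right; simp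
  · right; rw [mul_one]; exact inv_eq_of_mul_eq_one_left hzz
  · left; simp

theorem NN_mul {u p r : G} (hp : p ∈ ZM G) (hr : r ∈ ZM G) :
    (p * r) * (u * (p * r) * u⁻¹) = (p * (u * p * u⁻¹)) * (r * (u * r * u⁻¹)) := by
  have h1 := (mem_ZM.mp hr).2 _ (mem_ZM.mp (ZM_conj hp u)).1
  calc (p * r) * (u * (p * r) * u⁻¹) = p * (r * (u * p * u⁻¹)) * (u * r * u⁻¹) := by group
    _ = p * ((u * p * u⁻¹) * r) * (u * r * u⁻¹) := by rw [h1]
    _ = _ := by group

theorem NN_mem {u p : G} (hu : u ∉ CC G) (hp : p ∈ ZM G) :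
    p * (u * p * u⁻¹) = 1 ∨ p * (u * p * u⁻¹) = z := by
  have h1 := nn_mem P h hz hx hc hd hcd hu (mem_ZM.mp hp).1
  have h2 := (mem_ZM.mp hp).2 _ (mem_ZM.mp (ZM_conj hp u)).1
  rw [h2]; exact h1

theorem NN_sq {u p : G} (hu : u ∉ CC G) (hp : p ∈ ZM G) :
    p ^ 2 * (u * p ^ 2 * u⁻¹) = 1 := by
  rw [pow_two, NN_mul P h hz hx hc hd hcd hp hp]
  rcases NN_mem P h hz hx hc hd hcd hu hp with h1 | h1 <;> rw [h1]
  · simp
  · exact z_sq P h hz hx hc hd hcd

/-- (8) -/
theorem inversion {u s : G} (hu : u ∉ CC G) (hs : s ∈ ZM G) : u * s * u⁻¹ = s⁻¹ := by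
  by_contra hcon
  have hzz := z_sq P h hz hx hc hd hcd
  have hNs : s * (u * s * u⁻¹) = z := by
    rcases NN_mem P h hz hx hc hd hcd hu hs with h1 | h1
    · exact absurd (eq_inv_of_mul_eq_one_right h1) hcon
    · exact h1
  have hzne : z ≠ 1 := hz.1
  obtain ⟨b, hbM, hb⟩ := P.cyc_of_unique h.two (ZM G)
    (fun p hp r hr => (mem_ZM.mp hp).2 r (mem_ZM.mp hr).1)
    (fun t ht ht2 => uniq P h hz hx hc hd hcd ht ht2)
  -- kernel of the norm consists of squares
  have hker : ∀ p ∈ ZM G, p * (u * p * u⁻¹) = 1 → ∃ r ∈ ZM G, p = r ^ 2 := by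
    intro p hp hNp
    by_contra hp'
    have hs' : ¬ ∃ r ∈ ZM G, s = r ^ 2 := by
      rintro ⟨r, hr, rfl⟩
      rw [NN_sq P h hz hx hc hd hcd hu hr] at hNs
      exact hzne hNs.symm
    obtain ⟨r, hr, hpr⟩ := sq_index hbM hb hp hs hp' hs'
    have h1 := NN_mul P h hz hx hc hd hcd (u := u) hp hs
    rw [hpr, NN_sq P h hz hx hc hd hcd hu hr, hNp, hNs, one_mul] at h1
    exact hzne h1.symm
  have hc2 : c ^ 2 * (u * c ^ 2 * u⁻¹) = 1 := by
    have h1 : u * c ^ 2 * u⁻¹ = (u * c * u⁻¹) ^ 2 := by rw [conj_pow]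
    rw [h1]
    rcases nn_mem P h hz hx hc hd hcd hu hc with h2 | h2
    · have : u * c * u⁻¹ = c⁻¹ := eq_inv_of_mul_eq_one_left h2
      rw [this, inv_pow, mul_inv_cancel]
    · have : u * c * u⁻¹ = z * c⁻¹ := by rw [← h2]; group
      have hcz : Commute z c⁻¹ := (mem_center_iff.mp (z_center P h hz hx hc hd hcd) c⁻¹).symm
      rw [this, hcz.mul_pow, pow_two z, hzz, one_mul, inv_pow, mul_inv_cancel]
  obtain ⟨s₁, hs₁, hcs₁⟩ := hker _ (Sq_le_ZM (P.sq_comm h) (sq_mem c)) hc2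
  have hs₁c := (mem_ZM.mp hs₁).2 c hc
  set c' := c * s₁⁻¹ with hc'
  have hc'C : c' ∈ CC G := mul_mem hc (inv_mem (mem_ZM.mp hs₁).1)
  have hc'2 : c' ^ 2 = 1 := by
    have : Commute c s₁⁻¹ := (show Commute c s₁ from hs₁c.symm).inv_right
    rw [hc', this.mul_pow, inv_pow, hcs₁, mul_inv_cancel]
  have hc'd : c' * d ≠ d * c' := by
    intro h1
    apply hcd
    have h2 := (mem_ZM.mp hs₁).2 d hd
    have h3 : c = c' * s₁ := by rw [hc']; group
    rw [h3, mul_assoc, h2, ← mul_assoc, h1, mul_assoc]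
  have hc'Z : c' ∉ ZM G := fun h1 => hc'd ((mem_ZM.mp h1).2 d hd)
  obtain ⟨u', hu', hu'c, hu's⟩ : ∃ u', u' ∉ CC G ∧ u' * c' = c' * u' ∧
      s * (u' * s * u'⁻¹) = z := by
    have hc'inv : c'⁻¹ = c' := inv_eq_of_mul_eq_one_left (by rw [← pow_two]; exact hc'2)
    rcases nn_mem P h hz hx hc hd hcd hu hc'C with h1 | h1
    · refine ⟨u, hu, ?_, hNs⟩
      have : u * c' * u⁻¹ = c'⁻¹ := eq_inv_of_mul_eq_one_left h1
      rw [hc'inv] at this
      calc u * c' = (u * c' * u⁻¹) * u := by group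
        _ = c' * u := by rw [this]
    · refine ⟨u * d, out_mul P h hz hx hc hd hcd hu hd, ?_, ?_⟩
      · have h2 : u * c' * u⁻¹ = z * c'⁻¹ := by rw [← h1]; group
        rw [hc'inv] at h2
        have h3 : br d c' = z := by
          rcases br_mem P h hz hx hc hd hcd hd hc'C with h3 | h3
          · exact absurd (br_eq_one.mp h3).symm hc'd
          · exact h3
        have h4 : d * c' = z * c' * d := by rw [← h3]; unfold br; group
        have hzu := mem_center_iff.mp (z_center P h hz hx hc hd hcd) u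
        calc u * d * c' = u * (d * c') := by group
          _ = u * (z * c' * d) := by rw [h4]
          _ = (u * z) * c' * d := by group
          _ = (z * u) * c' * d := by rw [hzu]
          _ = z * (u * c' * u⁻¹) * u * d := by group
          _ = z * (z * c') * u * d := by rw [h2]
          _ = (z * z) * c' * u * d := by group
          _ = c' * (u * d) := by rw [hzz]; group
      · have h2 := (mem_ZM.mp hs).2 d hd
        have h3 : u * d * s * (u * d)⁻¹ = u * s * u⁻¹ := by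
          calc u * d * s * (u * d)⁻¹ = u * (d * s) * d⁻¹ * u⁻¹ := by group
            _ = u * (s * d) * d⁻¹ * u⁻¹ := by rw [h2]
            _ = u * s * u⁻¹ := by group
        rw [h3]; exact hNs
  rcases sq_out P h hz hx hc hd hcd hu' with h1 | h1
  · exact mmX P h hz hx hc hd hcd hu' h1 hc'C hc'Z hc'2 hu'c
  · apply mmX P h hz hx hc hd hcd (v := u' * s)
      (out_mul P h hz hx hc hd hcd hu' (mem_ZM.mp hs).1) _ hc'C hc'Z hc'2 _
    · rw [nn P h hz hx hc hd hcd hu', h1]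
      have h2 := (mem_ZM.mp hs).2 _ (mem_ZM.mp (ZM_conj hs u')).1
      rw [← h2, hu's, hzz]
    · have h2 := (mem_ZM.mp hs).2 c' hc'C
      rw [mul_assoc, h2, ← mul_assoc, hu'c, mul_assoc]

theorem z_isSq : ∃ s ∈ ZM G, z = s ^ 2 := by
  obtain ⟨i, hi⟩ := P.mono_mem h hz (four_ne P h hz hx hc hd hcd)
  refine ⟨(x ^ 2) ^ i, zpow_mem (x2_mem_ZM P h hz hx hc hd hcd) i, ?_⟩
  rw [← hi]
  change ((x ^ 2) ^ 2) ^ i = ((x ^ 2) ^ i) ^ 2
  rw [pow_two (x ^ 2), pow_two ((x ^ 2) ^ i), (Commute.refl (x ^ 2)).mul_zpow]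

theorem notSq {v g : G} (hv : v ∉ CC G) (hv2 : v ^ 2 = 1) (hg : g ∈ CC G) (hgZ : g ∉ ZM G)
    (hvg : (v * g) ^ 2 = 1) : ¬ ∃ s ∈ ZM G, g ^ 2 = s ^ 2 := by
  rintro ⟨s, hs, hgs⟩
  have hvi : v * g * v⁻¹ = g⁻¹ := by
    have := nn P h hz hx hc hd hcd (g := g) hv
    rw [hvg, hv2, one_mul] at this
    exact eq_inv_of_mul_eq_one_left this.symm
  have hsg := (mem_ZM.mp hs).2 g hg
  have hcomm : Commute g s := hsg.symm
  have h2 : (g * s⁻¹) ^ 2 = 1 := by
    rw [hcomm.inv_right.mul_pow, inv_pow, hgs, mul_inv_cancel]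
  have hsC := (mem_ZM.mp hs).1
  refine mmX P h hz hx hc hd hcd hv hv2 (mul_mem hg (inv_mem hsC)) ?_ h2 ?_
  · intro h3
    apply hgZ
    simpa using mul_mem h3 hs
  · have h3 : v * s⁻¹ * v⁻¹ = s := by
      have := inversion P h hz hx hc hd hcd hv (inv_mem hs)
      rw [inv_inv] at this
      exact this
    have h4 : v * (g * s⁻¹) * v⁻¹ = (g * s⁻¹)⁻¹ := by
      calc v * (g * s⁻¹) * v⁻¹ = (v * g * v⁻¹) * (v * s⁻¹ * v⁻¹) := by group
        _ = g⁻¹ * s := by rw [hvi, h3]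
        _ = (s⁻¹ * g)⁻¹ := by group
        _ = (g * s⁻¹)⁻¹ := by rw [hcomm.inv_right.eq]
    have h5 : (g * s⁻¹)⁻¹ = g * s⁻¹ := inv_eq_of_mul_eq_one_left (by rw [← pow_two]; exact h2)
    rw [h5] at h4
    calc v * (g * s⁻¹) = (v * (g * s⁻¹) * v⁻¹) * v := by group
      _ = g * s⁻¹ * v := by rw [h4]

theorem bad {v g k : G} (hv : v ∉ CC G) (hv2 : v ^ 2 = 1) (hg : g ∈ CC G) (hk : k ∈ CC G)
    (hgk : g * k ≠ k * g) (hvg : (v * g) ^ 2 = 1) (hvk : (v * k) ^ 2 = 1) : False := by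
  have hgZ : g ∉ ZM G := fun h1 => hgk ((mem_ZM.mp h1).2 k hk)
  have hkZ : k ∉ ZM G := fun h1 => hgk ((mem_ZM.mp h1).2 g hg).symm
  have hgkZ : g⁻¹ * k ∉ ZM G := fun h1 => by
    apply hgk
    have h2 := (mem_ZM.mp h1).2 g hg
    calc g * k = g * (g * (g⁻¹ * k)) := by group
      _ = g * (g⁻¹ * k * g) := by rw [h2]
      _ = k * g := by group
  have n1 := notSq P h hz hx hc hd hcd hv hv2 hg hgZ hvg
  have n2 := notSq P h hz hx hc hd hcd hv hv2 hk hkZ hvk
  have n3 := notSq P h hz hx hc hd hcd (out_mul P h hz hx hc hd hcd hv hg) hvg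
    (mul_mem (inv_mem hg) hk) hgkZ (by rw [show v * g * (g⁻¹ * k) = v * k by group]; exact hvk)
  obtain ⟨b, hbM, hb⟩ := P.cyc_of_unique h.two (ZM G)
    (fun p hp r hr => (mem_ZM.mp hp).2 r (mem_ZM.mp hr).1)
    (fun t ht ht2 => uniq P h hz hx hc hd hcd ht ht2)
  have hg2M : g ^ 2 ∈ ZM G := Sq_le_ZM (P.sq_comm h) (sq_mem g)
  have hk2M : k ^ 2 ∈ ZM G := Sq_le_ZM (P.sq_comm h) (sq_mem k)
  have n1' : ¬ ∃ s ∈ ZM G, (g ^ 2)⁻¹ = s ^ 2 := by
    rintro ⟨s, hs, h1⟩
    exact n1 ⟨s⁻¹, inv_mem hs, by rw [inv_pow, ← h1, inv_inv]⟩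
  obtain ⟨s, hs, hs2⟩ := sq_index hbM hb (inv_mem hg2M) hk2M n1' n2
  obtain ⟨r, hr, hr2⟩ := z_isSq P h hz hx hc hd hcd
  apply n3
  refine ⟨r * s, mul_mem hr hs, ?_⟩
  have hrs : Commute r s := (mem_ZM.mp hr).2 s (mem_ZM.mp hs).1
  rw [hrs.mul_pow, ← hr2, ← hs2]
  have h3 : br g k = z := by
    rcases br_mem P h hz hx hc hd hcd hg hk with h3 | h3
    · exact absurd (br_eq_one.mp h3) hgk
    · exact h3
  have hzg := mem_center_iff.mp (z_center P h hz hx hc hd hcd) ((g ^ 2)⁻¹)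
  calc (g⁻¹ * k) ^ 2 = (g ^ 2)⁻¹ * br g k * k ^ 2 := by unfold br; simp only [pow_two]; group
    _ = ((g ^ 2)⁻¹ * z) * k ^ 2 := by rw [h3]
    _ = (z * (g ^ 2)⁻¹) * k ^ 2 := by rw [hzg]
    _ = z * ((g ^ 2)⁻¹ * k ^ 2) := by group

theorem last {u : G} (hu : u ∉ CC G) :
      (u ^ 2 = 1 ∧ (u * c) ^ 2 = z ∧ (u * d) ^ 2 = z ∧ (u * (c * d)) ^ 2 = z) ∨
      (u ^ 2 = z ∧ (u * c) ^ 2 = 1 ∧ (u * d) ^ 2 = z ∧ (u * (c * d)) ^ 2 = z) ∨
      (u ^ 2 = z ∧ (u * c) ^ 2 = z ∧ (u * d) ^ 2 = 1 ∧ (u * (c * d)) ^ 2 = z) ∨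
      (u ^ 2 = z ∧ (u * c) ^ 2 = z ∧ (u * d) ^ 2 = z ∧ (u * (c * d)) ^ 2 = 1) := by
  have hzz := z_sq P h hz hx hc hd hcd
  have hzc := z_center P h hz hx hc hd hcd
  have e1 := nn P h hz hx hc hd hcd (g := c) hu
  have e2 := nn P h hz hx hc hd hcd (g := d) hu
  have e3 := nn P h hz hx hc hd hcd (g := c * d) hu
  -- n (c d) = n c * n d * z
  have hn : u * (c * d) * u⁻¹ * (c * d) = (u * c * u⁻¹ * c) * (u * d * u⁻¹ * d) * z := by
    have hnd : (u * d * u⁻¹ * d) ∈ center G := by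
      rcases nn_mem P h hz hx hc hd hcd hu hd with h1 | h1 <;> rw [h1]
      · exact one_mem _
      · exact hzc
    have hw := w_eq P h hz hx hc hd hcd
    have h1 : d * c = z * (c * d) := by
      have h2 : br d c = z := by
        rcases br_mem P h hz hx hc hd hcd hd hc with h3 | h3
        · exact absurd (br_eq_one.mp h3).symm hcd
        · exact h3
      rw [← h2]; unfold br; group
    have h3 := mem_center_iff.mp hnd (d⁻¹ * c)
    have h4 := mem_center_iff.mp hnd c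
    have h5 := mem_center_iff.mp hzc d⁻¹
    have hci : d⁻¹ * c * d = c * z := by
      have h6 : c * d = z * (d * c) := by rw [← hw]; unfold br; group
      calc d⁻¹ * c * d = d⁻¹ * (c * d) := by group
        _ = d⁻¹ * (z * (d * c)) := by rw [h6]
        _ = (d⁻¹ * z) * (d * c) := by group
        _ = (z * d⁻¹) * (d * c) := by rw [h5]
        _ = z * c := by group
        _ = c * z := (mem_center_iff.mp hzc c).symm
    calc u * (c * d) * u⁻¹ * (c * d)
        = (u * c * u⁻¹) * (u * d * u⁻¹ * d) * (d⁻¹ * c * d) := by group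
      _ = (u * c * u⁻¹) * ((u * d * u⁻¹ * d) * c) * z := by rw [hci]; group
      _ = (u * c * u⁻¹) * (c * (u * d * u⁻¹ * d)) * z := by rw [h4]
      _ = _ := by group
  rw [hn] at e3
  have b1 : u ^ 2 = 1 → (u * c) ^ 2 = 1 → (u * d) ^ 2 = 1 → False := fun h1 h2 h3 =>
    bad P h hz hx hc hd hcd hu h1 hc hd hcd h2 h3
  have hccd : c * (c * d) ≠ c * d * c := by
    intro h1
    apply hcd
    rw [mul_assoc] at h1
    exact mul_left_cancel h1
  have hdcd : d * (c * d) ≠ c * d * d := by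
    intro h1
    apply hcd
    rw [← mul_assoc] at h1
    exact (mul_right_cancel h1).symm
  have b2 : u ^ 2 = 1 → (u * d) ^ 2 = 1 → (u * (c * d)) ^ 2 = 1 → False := fun h1 h2 h3 =>
    bad P h hz hx hc hd hcd hu h1 hd (mul_mem hc hd) hdcd h2 h3
  have b3 : u ^ 2 = 1 → (u * c) ^ 2 = 1 → (u * (c * d)) ^ 2 = 1 → False := fun h1 h2 h3 =>
    bad P h hz hx hc hd hcd hu h1 hc (mul_mem hc hd) hccd h2 h3
  have b4 : (u * c) ^ 2 = 1 → (u * d) ^ 2 = 1 → (u * (c * d)) ^ 2 = 1 → False := fun h1 h2 h3 =>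
    bad P h hz hx hc hd hcd (out_mul P h hz hx hc hd hcd hu hc) h1
      (mul_mem (inv_mem hc) hd) hd
      (by
        intro h4
        apply hcd
        have h5 : c⁻¹ * d = d * c⁻¹ := by
          have : c⁻¹ * d * d = d * c⁻¹ * d := by rw [h4]; group
          exact mul_right_cancel this
        calc c * d = c * (d * c⁻¹) * c := by group
          _ = c * (c⁻¹ * d) * c := by rw [h5]
          _ = d * c := by group)
      (by rw [show u * c * (c⁻¹ * d) = u * d by group]; exact h2)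
      (by rw [show u * c * d = u * (c * d) by group]; exact h3)
  have hz1 : z ≠ 1 := hz.1
  rcases sq_out P h hz hx hc hd hcd hu with h1 | h1 <;>
    rcases nn_mem P h hz hx hc hd hcd hu hc with h2 | h2 <;>
    rcases nn_mem P h hz hx hc hd hcd hu hd with h3 | h3 <;>
    rw [h1, h2] at e1 <;> rw [h1, h3] at e2 <;> rw [h1, h2, h3] at e3 <;>
    simp only [one_mul, mul_one, hzz] at e1 e2 e3
  · exact (b1 h1 (by simpa using e1) (by simpa using e2)).elim
  · exact (b3 h1 (by simpa using e1) (by simpa using e3)).elim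
  · exact (b2 h1 (by simpa using e2) (by simpa using e3)).elim
  · left; exact ⟨h1, e1, e2, e3⟩
  · right; right; right; exact ⟨h1, e1, e2, e3⟩
  · right; right; left; exact ⟨h1, e1, e2, e3⟩
  · right; left; exact ⟨h1, e1, e2, e3⟩
  · exact (b4 e1 e2 e3).elim

end MCsec

theorem MC {G : Type*} [Group G] [Finite G] (P : Pre G) (h : IsC G) {z : G} (hz : Mono z)
    {x c d : G} (hx : x ^ 2 ∉ center G)
    (hc : c ∈ CC G) (hd : d ∈ CC G) (hcd : c * d ≠ d * c) :
    (CC G).index = 2 ∧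
    (∀ g ∈ center G, g = 1 ∨ g = z) ∧
    (∀ u ∉ CC G, u ^ 2 = 1 ∨ u ^ 2 = z) ∧
    (∀ s ∈ CC G, s * c = c * s → s * d = d * s → ∀ g ∈ CC G, s * g = g * s) ∧
    (∀ u ∉ CC G, ∀ s ∈ CC G, (∀ g ∈ CC G, s * g = g * s) → u * s * u⁻¹ = s⁻¹) ∧
    (∀ u ∉ CC G,
      (u ^ 2 = 1 ∧ (u * c) ^ 2 = z ∧ (u * d) ^ 2 = z ∧ (u * (c * d)) ^ 2 = z) ∨
      (u ^ 2 = z ∧ (u * c) ^ 2 = 1 ∧ (u * d) ^ 2 = z ∧ (u * (c * d)) ^ 2 = z) ∨
      (u ^ 2 = z ∧ (u * c) ^ 2 = z ∧ (u * d) ^ 2 = 1 ∧ (u * (c * d)) ^ 2 = z) ∨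
      (u ^ 2 = z ∧ (u * c) ^ 2 = z ∧ (u * d) ^ 2 = z ∧ (u * (c * d)) ^ 2 = 1)) :=
  ⟨idx P h hz hx hc hd hcd, fun _ hg => center_eq P h hz hx hc hd hcd hg,
    fun _ hu => sq_out P h hz hx hc hd hcd hu,
    fun _ hs h1 h2 => (mem_ZM.mp (three P h hz hx hc hd hcd hs h1 h2)).2,
    fun _ hu _ hs h1 => inversion P h hz hx hc hd hcd hu (mem_ZM.mpr ⟨hs, h1⟩),
    fun _ hu => last P h hz hx hc hd hcd hu⟩

section MTsec

variable {G : Type*} [Group G]

theorem cyc_comp (h2 : IsPGroup 2 G) : ∀ (n : ℕ) (b : G) (i j : ℤ), i.natAbs ≤ n →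
    b ^ i ∈ zpowers (b ^ j) ∨ b ^ j ∈ zpowers (b ^ i) := by
  intro n
  induction n with
  | zero =>
    intro b i j hi
    have : i = 0 := by omega
    left; rw [this, zpow_zero]; exact one_mem _
  | succ n ih =>
    intro b i j hi
    rcases Int.even_or_odd i with hie | hio
    · rcases Int.even_or_odd j with hje | hjo
      · by_cases hi0 : i = 0
        · left; rw [hi0, zpow_zero]; exact one_mem _
        obtain ⟨i', rfl⟩ := hie
        obtain ⟨j', rfl⟩ := hje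
        have := ih (b ^ 2) i' j' (by omega)
        have e : ∀ k : ℤ, (b ^ 2) ^ k = b ^ (k + k) := fun k => by
          rw [← two_mul, zpow_mul, zpow_ofNat]
        rwa [e, e] at this
      · left
        exact zpow_mem (mem_zpowers_odd h2 b hjo) i
    · right
      exact zpow_mem (mem_zpowers_odd h2 b hio) j

theorem MT [Finite G] (P : Pre G) (h : IsC G) {z : G} (hz : Mono z) {x y u : G}
    (hx : (centralizer ({x ^ 2} : Set G)).index = 2)
    (hy : (centralizer ({y ^ 2} : Set G)).index = 2)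
    (hne : centralizer ({x ^ 2} : Set G) ≠ centralizer ({y ^ 2} : Set G))
    (hux : u * x ^ 2 ≠ x ^ 2 * u) (huy : u * y ^ 2 ≠ y ^ 2 * u) : u ^ 2 = z := by
  have mC : ∀ {a g : G}, g ∈ centralizer ({a} : Set G) ↔ g * a = a * g := fun {a g} =>
    mem_centralizer_singleton_iff
  -- subgroups of the same index
  have hle_eq : ∀ {H K : Subgroup G}, H.index = 2 → K.index = 2 → H ≤ K → H = K := by
    intro H K hH hK hle
    have h1 := relIndex_mul_index hle
    rw [hH, hK] at h1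
    have h2 : H.relIndex K = 1 := by omega
    exact le_antisymm hle (relIndex_eq_one.mp h2)
  obtain ⟨B, hB, -⟩ := P.exists_SC (Sq G) le_rfl (fun a ha b hb =>
    CC_comm_Sq (Sq_le_CC (P.sq_comm h) ha) hb)
  have hB4 := P.MM' h hz hB
  have hBle : ∀ a : G, B ≤ centralizer ({a ^ 2} : Set G) := fun a b hb =>
    mC.mpr (hB.comm b hb _ (hB.sq_le (sq_mem a)))
  have hnle : ¬ centralizer ({x ^ 2} : Set G) ≤ centralizer ({y ^ 2} : Set G) := fun hle =>
    hne (hle_eq hx hy hle)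
  have hBinf : ∀ {g : G}, g * x ^ 2 = x ^ 2 * g → g * y ^ 2 = y ^ 2 * g → g ∈ B := by
    intro g hg1 hg2
    have h1 : (centralizer ({x ^ 2} : Set G) ⊓ centralizer ({y ^ 2} : Set G)).relIndex
        (centralizer ({x ^ 2} : Set G)) * (centralizer ({x ^ 2} : Set G)).index = _ :=
      relIndex_mul_index inf_le_left
    rw [inf_relIndex_left, hx] at h1
    have h2 : (centralizer ({y ^ 2} : Set G)).relIndex (centralizer ({x ^ 2} : Set G)) ≠ 1 := by
      rw [Ne, relIndex_eq_one]; exact hnle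
    have h3 : (centralizer ({y ^ 2} : Set G)).relIndex (centralizer ({x ^ 2} : Set G)) ≠ 0 := by
      have : ((centralizer ({y ^ 2} : Set G)).subgroupOf
        (centralizer ({x ^ 2} : Set G))).index ≠ 0 := index_ne_zero_of_finite
      exact this
    have h4 := relIndex_mul_index (le_inf (hBle x) (hBle y))
    have h5 : B.relIndex (centralizer ({x ^ 2} : Set G) ⊓ centralizer ({y ^ 2} : Set G)) ≠ 0 := by
      have : (B.subgroupOf (centralizer ({x ^ 2} : Set G) ⊓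
        centralizer ({y ^ 2} : Set G))).index ≠ 0 := index_ne_zero_of_finite
      exact this
    have h6 : B.relIndex (centralizer ({x ^ 2} : Set G) ⊓ centralizer ({y ^ 2} : Set G)) = 1 := by
      rw [← h4, ← h1] at hB4
      by_contra h7
      have h8 : 2 ≤ B.relIndex (centralizer ({x ^ 2} : Set G) ⊓
        centralizer ({y ^ 2} : Set G)) := by omega
      have h9 : 2 ≤ (centralizer ({y ^ 2} : Set G)).relIndex
        (centralizer ({x ^ 2} : Set G)) := by omega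
      nlinarith
    exact relIndex_eq_one.mp h6 (mem_inf.mpr ⟨mC.mpr hg1, mC.mpr hg2⟩)
  -- an involution of B
  obtain ⟨t, htB, ht2, ht1, htz⟩ : ∃ t ∈ B, t ^ 2 = 1 ∧ t ≠ 1 ∧ t ≠ z := by
    by_contra hcon
    push Not at hcon
    obtain ⟨b, hbB, hb⟩ := P.cyc_of_unique h.two B hB.comm (z := z) (fun t ht ht2 => by
      by_cases h1 : t = 1
      · exact Or.inl h1
      · exact Or.inr (hcon t ht ht2 h1))
    obtain ⟨i, hi⟩ := hb _ (hB.sq_le (sq_mem x))
    obtain ⟨j, hj⟩ := hb _ (hB.sq_le (sq_mem y))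
    have hle : ∀ {p r : G}, p ∈ zpowers r →
        centralizer ({r} : Set G) ≤ centralizer ({p} : Set G) := by
      rintro p r ⟨k, rfl⟩ g hg
      rw [mC] at hg ⊢
      exact ((show Commute g r from hg).zpow_right k).eq
    rcases cyc_comp h.two _ b i j le_rfl with h1 | h1
    · rw [show b ^ i = x ^ 2 from hi, show b ^ j = y ^ 2 from hj] at h1
      exact hne (hle_eq hy hx (hle h1)).symm
    · rw [show b ^ i = x ^ 2 from hi, show b ^ j = y ^ 2 from hj] at h1
      exact hne (hle_eq hx hy (hle h1))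
  have hzc := (P.mono_center h.two hz)
  have hconj : ∀ g : G, g * t * g⁻¹ = t ∨ g * t * g⁻¹ = t * z := by
    intro g
    by_cases h1 : g * t * g⁻¹ = t
    · exact Or.inl h1
    right
    have hgB : g * t * g⁻¹ ∈ B := by
      have : g * t * g⁻¹ = (g * t * g⁻¹ * t⁻¹) * t := by group
      rw [this]
      exact mul_mem (hB.sq_le (comm_mem_Sq g t)) htB
    have hg2 : (g * t * g⁻¹) ^ 2 = 1 := by rw [conj_pow, ht2]; group
    rcases P.mm2 h hz ht2 hg2 (hB.comm t htB _ hgB) ht1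
      (fun h2 => ht1 (by
        have : t = g⁻¹ * (g * t * g⁻¹) * g := by group
        rw [this, h2]; group)) (fun h2 => h1 h2.symm) with h2 | h2 | h2
    · exact absurd h2 htz
    · exfalso
      apply htz
      have h3 := mem_center_iff.mp hzc.1 g⁻¹
      calc t = g⁻¹ * (g * t * g⁻¹) * g := by group
        _ = g⁻¹ * z * g := by rw [h2]
        _ = z * g⁻¹ * g := by rw [h3]
        _ = z := by group
    · have htt : t⁻¹ = t := inv_eq_of_mul_eq_one_left (by rw [← pow_two]; exact ht2)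
      calc g * t * g⁻¹ = t⁻¹ * (t * (g * t * g⁻¹)) := by group
        _ = t * z := by rw [h2, htt]
  have huB : u ∉ B := fun h1 => hux (mC.mp (hBle x h1))
  obtain ⟨y', hy'B, hy't⟩ : ∃ y', y' ∉ B ∧ y' * t = t * y' := by
    obtain ⟨p, hpH, hpK⟩ := SetLike.not_le_iff_exists.mp hnle
    rw [mC] at hpH hpK
    have hpB : p ∉ B := fun h1 => hpK (mC.mp (hBle y h1))
    have hpuB : p⁻¹ * u ∉ B := by
      intro h1
      have h2 := mC.mp (hBle x h1)
      apply hux
      calc u * x ^ 2 = p * (p⁻¹ * u * x ^ 2) := by group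
        _ = p * (x ^ 2 * (p⁻¹ * u)) := by rw [h2]
        _ = (p * x ^ 2) * (p⁻¹ * u) := by group
        _ = (x ^ 2 * p) * (p⁻¹ * u) := by rw [hpH]
        _ = x ^ 2 * u := by group
    have conv : ∀ {g : G}, g * t * g⁻¹ = t → g * t = t * g := fun {g} h1 => by
      calc g * t = (g * t * g⁻¹) * g := by group
        _ = t * g := by rw [h1]
    rcases hconj p with h1 | h1
    · exact ⟨p, hpB, conv h1⟩
    rcases hconj u with h2 | h2
    · exact ⟨u, huB, conv h2⟩
    refine ⟨p⁻¹ * u, hpuB, conv ?_⟩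
    calc p⁻¹ * u * t * (p⁻¹ * u)⁻¹ = p⁻¹ * (u * t * u⁻¹) * p := by group
      _ = p⁻¹ * (p * t * p⁻¹) * p := by rw [h2, h1]
      _ = t := by group
  obtain ⟨hinv, -⟩ := P.mm3 h hz hB htB ht2 ht1 htz hy'B hy't
  have hout : ∀ a : G, (centralizer ({a ^ 2} : Set G)).index = 2 → y' * a ^ 2 ≠ a ^ 2 * y' := by
    intro a ha hcomm
    have h1 := hinv _ (hB.sq_le (sq_mem a))
    rw [hcomm, mul_inv_cancel_right] at h1
    have h4 : (a ^ 2) ^ 2 = 1 := by
      rw [pow_two]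
      nth_rw 2 [h1]
      group
    have hnc : a ^ 2 ∉ center G := by
      intro h5
      have : centralizer ({a ^ 2} : Set G) = ⊤ := by
        rw [eq_top_iff]
        intro g _
        exact mC.mpr (mem_center_iff.mp h5 g)
      rw [this, index_top] at ha
      omega
    have h5 : a ^ 2 ≠ 1 := fun h5 => hnc (h5 ▸ one_mem _)
    rcases mem_zpowers_of_sq_one h4 (P.mono_mem h hz h5) with h6 | h6
    · exact hz.1 h6
    · exact hnc (h6 ▸ hzc.1)
  have hmul : ∀ a : G, (centralizer ({a ^ 2} : Set G)).index = 2 → u * a ^ 2 ≠ a ^ 2 * u →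
      y'⁻¹ * u * a ^ 2 = a ^ 2 * (y'⁻¹ * u) := by
    intro a ha hua
    rw [← mC, mul_mem_iff_of_index_two ha, inv_mem_iff, mC, mC]
    exact ⟨fun h1 => absurd h1 (hout a ha), fun h1 => absurd h1 hua⟩
  have hyu : y'⁻¹ * u ∈ B := hBinf (hmul x hx hux) (hmul y hy huy)
  have hut : u * t = t * u := by
    have h1 := hB.comm _ hyu t htB
    calc u * t = y' * (y'⁻¹ * u * t) := by group
      _ = y' * (t * (y'⁻¹ * u)) := by rw [h1]
      _ = (y' * t) * (y'⁻¹ * u) := by group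
      _ = (t * y') * (y'⁻¹ * u) := by rw [hy't]
      _ = t * u := by group
  exact (P.mm3 h hz hB htB ht2 ht1 htz huB hut).2

end MTsec

theorem Zc {G : Type*} [Group G] [Finite G] (P : Pre G) (h : IsC G) {z : G} (hz : Mono z)
    (hcl : ∀ x : G, x ^ 2 ∈ center G)
    {ζ : G} (hζ : ζ ∈ center G) (hζ2 : ζ ^ 2 ≠ 1) : (center G).index ≤ 4 := by
  obtain ⟨hzc, hz2⟩ := P.mono_center h.two hz
  have hzz : z * z = 1 := by rw [← pow_two]; exact hz2
  have hz1 : z ≠ 1 := hz.1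
  have hCC : ∀ g : G, g ∈ CC G := fun g => mem_CC.mpr fun x => (mem_center_iff.mp (hcl x) g).symm
  have hSq : Sq G ≤ center G := by
    unfold Sq
    rw [closure_le]
    rintro _ ⟨x, rfl⟩
    exact hcl x
  have huniq : ∀ t ∈ center G, t ^ 2 = 1 → t = 1 ∨ t = z := fun t ht ht2 => by
    by_cases h1 : t = 1
    · exact Or.inl h1
    · exact Or.inr (mono_eq hz ht ht2 h1)
  have hbr : ∀ a b : G, br a b = 1 ∨ br a b = z := by
    intro a b
    apply huniq _ (hSq (comm_mem_Sq a b))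
    rw [pow_two, ← br_mul_left (hCC a), br_eq_one]
    have := mem_center_iff.mp (hcl a) b
    rw [pow_two] at this
    exact this.symm
  have hbr' : ∀ {a b : G}, a * b ≠ b * a → br a b = z := fun {a b} h1 =>
    (hbr a b).resolve_left fun h2 => h1 (br_eq_one.mp h2)
  have hsym : ∀ {a b : G}, br a b = z → br b a = z := fun {a b} h1 => by
    rw [br_inv, h1]; exact inv_eq_of_mul_eq_one_left hzz
  have hsym1 : ∀ {a b : G}, br a b = 1 → br b a = 1 := fun {a b} h1 => by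
    rw [br_inv, h1, inv_one]
  obtain ⟨k, hk4, hk2⟩ := exists_order_four h.two hζ2
  have hzs : ∃ s ∈ center G, z = s ^ 2 :=
    ⟨ζ ^ k, pow_mem hζ k, ((huniq _ (pow_mem (pow_mem hζ k) 2) hk4).resolve_left hk2).symm⟩
  obtain ⟨s₀, hs₀, hzs₀⟩ := hzs
  obtain ⟨b, hbZ, hb⟩ := P.cyc_of_unique h.two (center G)
    (fun p _ r hr => mem_center_iff.mp hr p) huniq
  -- pair lemma
  have hpair : ∀ {a e : G}, br a e = z → ∃ g : G, g ^ 2 = 1 ∧ (g * a ≠ a * g ∨ g * e ≠ e * g) ∧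
      (∀ p, p * a = a * p → p * e = e * p → p * g = g * p) := by
    intro a e hae
    have hae' : a * e ≠ e * a := fun h1 => hz1 (by rw [← hae]; exact br_eq_one.mpr h1)
    have hfin : ∀ {g s : G}, s ∈ center G → g ^ 2 = s ^ 2 → (g * a ≠ a * g ∨ g * e ≠ e * g) →
        (∀ p, p * a = a * p → p * e = e * p → p * g = g * p) →
        ∃ g : G, g ^ 2 = 1 ∧ (g * a ≠ a * g ∨ g * e ≠ e * g) ∧
        (∀ p, p * a = a * p → p * e = e * p → p * g = g * p) := by
      intro g s hs hgs h1 h2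
      have hsc : ∀ p : G, Commute p s⁻¹ := fun p =>
        (show Commute p s from mem_center_iff.mp hs p).inv_right
      have hpg : ∀ p : G, p * (g * s⁻¹) = (g * s⁻¹) * p ↔ p * g = g * p := by
        intro p
        constructor
        · intro h3
          have h4 := (hsc p).eq
          have : (p * g) * s⁻¹ = (g * p) * s⁻¹ := by
            rw [mul_assoc, h3, mul_assoc, ← h4, ← mul_assoc]
          exact mul_right_cancel this
        · intro h3
          have h4 := (hsc p).eq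
          rw [← mul_assoc, h3, mul_assoc, h4, ← mul_assoc]
      refine ⟨g * s⁻¹, ?_, ?_, fun p hp1 hp2 => (hpg p).mpr (h2 p hp1 hp2)⟩
      · rw [(hsc g).mul_pow, inv_pow, hgs, mul_inv_cancel]
      · rcases h1 with h1 | h1
        · exact Or.inl fun h3 => h1 ((hpg a).mp h3.symm).symm
        · exact Or.inr fun h3 => h1 ((hpg e).mp h3.symm).symm
    by_cases ha : ∃ s ∈ center G, a ^ 2 = s ^ 2
    · obtain ⟨s, hs, has⟩ := ha
      exact hfin hs has (Or.inr hae') (fun p hp _ => hp)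
    by_cases he : ∃ s ∈ center G, e ^ 2 = s ^ 2
    · obtain ⟨s, hs, hes⟩ := he
      exact hfin hs hes (Or.inl fun h1 => hae' h1.symm) (fun p _ hp => hp)
    obtain ⟨s, hs, hsq⟩ := sq_index hbZ hb (hcl a) (hcl e) ha he
    have h1 : (a * e) ^ 2 = (s * s₀) ^ 2 := by
      have hss : Commute s s₀ := (mem_center_iff.mp hs₀ s)
      rw [hss.mul_pow, ← hzs₀, ← hsq]
      have h2 : e * a = z * (a * e) := by
        have h3 := hsym hae
        rw [← h3]; unfold br; group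
      have h3 := mem_center_iff.mp hzc a
      calc (a * e) ^ 2 = a * (e * a) * e := by simp only [pow_two]; group
        _ = (a * z) * (a * e) * e := by rw [h2]; group
        _ = (z * a) * (a * e) * e := by rw [h3]
        _ = z * (a ^ 2 * e ^ 2) := by simp only [pow_two]; group
        _ = a ^ 2 * e ^ 2 * z := (mem_center_iff.mp hzc _).symm
    refine hfin (mul_mem hs hs₀) h1 (Or.inl ?_) ?_
    · intro h2
      apply hae'
      rw [mul_assoc] at h2
      exact (mul_left_cancel h2).symm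
    · intro p hp1 hp2
      rw [← mul_assoc, hp1, mul_assoc, hp2, mul_assoc]
  by_contra hidx
  push Not at hidx
  obtain ⟨c, d, hcd⟩ : ∃ c d : G, br c d = z := by
    by_contra hcon
    push Not at hcon
    have : center G = ⊤ := by
      rw [eq_top_iff]
      intro g _
      rw [mem_center_iff]
      intro k
      exact br_eq_one.mp ((hbr k g).resolve_right (hcon k g))
    rw [this, index_top] at hidx
    omega
  have hdc := hsym hcd
  have hcc : br c c = 1 := br_eq_one.mpr rfl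
  have hdd : br d d = 1 := br_eq_one.mpr rfl
  have hdec : ∀ g : G, ∃ k, (k = 1 ∨ k = c ∨ k = d ∨ k = c * d) ∧ br (g * k) c = 1 ∧
      br (g * k) d = 1 := by
    intro g
    rcases hbr g c with h1 | h1 <;> rcases hbr g d with h2 | h2
    · exact ⟨1, Or.inl rfl, by rw [mul_one]; exact h1, by rw [mul_one]; exact h2⟩
    · refine ⟨c, Or.inr (Or.inl rfl), ?_, ?_⟩
      · rw [br_mul_left (hCC g), h1, hcc, one_mul]
      · rw [br_mul_left (hCC g), h2, hcd, hzz]
    · refine ⟨d, Or.inr (Or.inr (Or.inl rfl)), ?_, ?_⟩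
      · rw [br_mul_left (hCC g), h1, hdc, hzz]
      · rw [br_mul_left (hCC g), h2, hdd, one_mul]
    · refine ⟨c * d, Or.inr (Or.inr (Or.inr rfl)), ?_, ?_⟩
      · rw [br_mul_left (hCC g), br_mul_left (hCC c), h1, hdc, hcc, mul_one, hzz]
      · rw [br_mul_left (hCC g), br_mul_left (hCC c), h2, hcd, hdd, one_mul, hzz]
  obtain ⟨e, hec, hed, he⟩ : ∃ e, br e c = 1 ∧ br e d = 1 ∧ e ∉ center G := by
    by_contra hcon
    push Not at hcon
    have hle : (center G).index ≤ 4 := by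
      have hsurj : Function.Surjective
          (![(QuotientGroup.mk (1 : G) : G ⧸ center G), QuotientGroup.mk c⁻¹,
            QuotientGroup.mk d⁻¹, QuotientGroup.mk (c * d)⁻¹]) := by
        intro q
        induction q using QuotientGroup.induction_on with
        | H g =>
          obtain ⟨k, hk, h1, h2⟩ := hdec g
          have hgk := hcon _ h1 h2
          have h3 : (QuotientGroup.mk k⁻¹ : G ⧸ center G) = QuotientGroup.mk g := by
            rw [QuotientGroup.eq, inv_inv]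
            have h4 := mem_center_iff.mp hgk g⁻¹
            have : k * g = g * k := by
              calc k * g = g⁻¹ * (g * k) * g := by group
                _ = g * k * g⁻¹ * g := by rw [h4]
                _ = g * k := by group
            rw [this]; exact hgk
          rcases hk with rfl | rfl | rfl | rfl
          · exact ⟨0, by rw [← h3]; simp⟩
          · exact ⟨1, by rw [← h3]; simp⟩
          · exact ⟨2, by rw [← h3]; simp⟩
          · exact ⟨3, by rw [← h3]; simp⟩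
      have := Nat.card_le_card_of_surjective _ hsurj
      rw [Nat.card_fin] at this
      exact this
    omega
  obtain ⟨f, hf⟩ : ∃ f, br e f = z := by
    by_contra hcon
    push Not at hcon
    apply he
    rw [mem_center_iff]
    intro g
    exact (br_eq_one.mp ((hbr e g).resolve_right (hcon g))).symm
  obtain ⟨f', hf', hf'c, hf'd⟩ : ∃ f', br e f' = z ∧ br f' c = 1 ∧ br f' d = 1 := by
    obtain ⟨k, hk, h1, h2⟩ := hdec f
    refine ⟨f * k, ?_, h1, h2⟩
    rw [br_mul_right (hCC f), hf]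
    rcases hk with rfl | rfl | rfl | rfl
    · simp [br]
    · rw [hec, mul_one]
    · rw [hed, mul_one]
    · rw [br_mul_right (hCC c), hec, hed, mul_one, mul_one]
  obtain ⟨g, hg2, hg, hgc⟩ := hpair hcd
  obtain ⟨g', hg'2, hg', hg'c⟩ := hpair hf'
  have he1 := br_eq_one.mp hec
  have he2 := br_eq_one.mp hed
  have hf1 := br_eq_one.mp hf'c
  have hf2 := br_eq_one.mp hf'd
  have heg := hgc e he1 he2
  have hfg := hgc f' hf1 hf2
  have hgg' : g * g' = g' * g := hg'c g heg.symm hfg.symm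
  have hcg' : c * g' = g' * c := hg'c c he1.symm hf1.symm
  have hdg' : d * g' = g' * d := hg'c d he2.symm hf2.symm
  have hgnc : ∀ p : G, (p * c = c * p ∧ p * d = d * p) → g ≠ p := by
    rintro p ⟨hp1, hp2⟩ rfl
    rcases hg with h1 | h1
    · exact h1 hp1
    · exact h1 hp2
  have hg1 : g ≠ 1 := hgnc 1 ⟨by simp, by simp⟩
  have hg'1 : g' ≠ 1 := by
    rintro rfl
    rcases hg' with h1 | h1 <;> simp at h1
  have hne : g ≠ g' := hgnc g' ⟨hcg'.symm, hdg'.symm⟩
  rcases P.mm2 h hz hg2 hg'2 hgg' hg1 hg'1 hne with h1 | h1 | h1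
  · exact hgnc z ⟨(mem_center_iff.mp hzc c).symm, (mem_center_iff.mp hzc d).symm⟩ h1
  · rw [h1] at hg'
    rcases hg' with h2 | h2
    · exact h2 (mem_center_iff.mp hzc e).symm
    · exact h2 (mem_center_iff.mp hzc f').symm
  · refine hgnc (z * g'⁻¹) ⟨?_, ?_⟩ (by rw [← h1]; group)
    · have h2 : Commute z c := (mem_center_iff.mp hzc c).symm
      have h3 : Commute g' c := hcg'.symm
      exact (h2.mul_left h3.inv_left).eq
    · have h2 : Commute z d := (mem_center_iff.mp hzc d).symm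
      have h3 : Commute g' d := hdg'.symm
      exact (h2.mul_left h3.inv_left).eq

end Pool.Agent.Helper15.Core2
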