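import Pool.Agent.Helper15.Core2.MCT
import Pool.Agent.Helper95.Core2.Mono
import Pool.Agent.Helper35.Core2.SqComm

/-! The lemmas MC, MT, Zc with the prerequisites discharged (skeleton signatures). -/

set_option autoImplicit false

namespace Pool.Agent.Helper15.Core2.Full

open Subgroup Pool.Agent.Helper5.Core2

variable {G : Type*} [Group G]

theorem pre [Finite G] : Pre G where
  sq_comm h x y := Pool.Agent.Helper35.Core2.sq_comm h x y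
  mono_center h2 _ hz := Pool.Agent.Helper95.Core2.mono_center h2 hz
  mono_mem h _ hz _ hw := Pool.Agent.Helper95.Core2.mono_mem h hz hw
  mm2 h _ hz _ _ hx hy hxy hx1 hy1 hne := Pool.Agent.Helper95.Core2.mm2 h hz hx hy hxy hx1 hy1 hne
  exists_SC B₀ hsq hcomm := Pool.Agent.Helper95.Core2.exists_SC B₀ hsq hcomm
  cyc_of_unique h2 B hcomm _ hz := Pool.Agent.Helper95.Core2.cyc_of_unique h2 B hcomm hz
  mm3 h _ hz _ hB _ _ ht ht2 ht1 htz hy hyt :=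
    Pool.Agent.Helper95.Core2.mm3 h hz hB ht ht2 ht1 htz hy hyt
  MM' h _ hz _ hB := Pool.Agent.Helper95.Core2.MM' h hz hB

theorem MC [Finite G] (h : IsC G) {z : G} (hz : Mono z) {x c d : G} (hx : x ^ 2 ∉ center G)
    (hc : c ∈ CC G) (hd : d ∈ CC G) (hcd : c * d ≠ d * c) :
    (CC G).index = 2 ∧
    (∀ g ∈ center G, g = 1 ∨ g = z) ∧
    (∀ u ∉ CC G, u ^ 2 = 1 ∨ u ^ 2 = z) ∧
    (∀ s ∈ CC G, s * c = c * s → s * d = d * s → ∀ g ∈ CC G, s * g = g * s) ∧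
    (∀ u ∉ CC G, ∀ s ∈ CC G, (∀ g ∈ CC G, s * g = g * s) → u * s * u⁻¹ = s⁻¹) ∧
    (∀ u ∉ CC G,
      (u ^ 2 = 1 ∧ (u * c) ^ 2 = z ∧ (u * d) ^ 2 = z ∧ (u * (c * d)) ^ 2 = z) ∨
      (u ^ 2 = z ∧ (u * c) ^ 2 = 1 ∧ (u * d) ^ 2 = z ∧ (u * (c * d)) ^ 2 = z) ∨
      (u ^ 2 = z ∧ (u * c) ^ 2 = z ∧ (u * d) ^ 2 = 1 ∧ (u * (c * d)) ^ 2 = z) ∨
      (u ^ 2 = z ∧ (u * c) ^ 2 = z ∧ (u * d) ^ 2 = z ∧ (u * (c * d)) ^ 2 = 1)) :=
  Core2.MC pre h hz hx hc hd hcd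

theorem MT [Finite G] (h : IsC G) {z : G} (hz : Mono z) {x y u : G}
    (hx : (centralizer ({x ^ 2} : Set G)).index = 2)
    (hy : (centralizer ({y ^ 2} : Set G)).index = 2)
    (hne : centralizer ({x ^ 2} : Set G) ≠ centralizer ({y ^ 2} : Set G))
    (hux : u * x ^ 2 ≠ x ^ 2 * u) (huy : u * y ^ 2 ≠ y ^ 2 * u) : u ^ 2 = z :=
  Core2.MT pre h hz hx hy hne hux huy

theorem Zc [Finite G] (h : IsC G) {z : G} (hz : Mono z) (hcl : ∀ x : G, x ^ 2 ∈ center G)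
    {ζ : G} (hζ : ζ ∈ center G) (hζ2 : ζ ^ 2 ≠ 1) : (center G).index ≤ 4 :=
  Core2.Zc pre h hz hcl hζ hζ2

end Pool.Agent.Helper15.Core2.Full
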